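import Mathlib

set_option autoImplicit false

/-!
# Von Neumann regular skew Laurent series rings are Artinian

`SkewLaurent A φ` is the skew Laurent series ring `A((x, φ))`: formal series `∑ a_i x^i` with
finitely many negative powers, added coefficientwise and multiplied by the rule `x a = φ(a) x`.
-/

namespace Pool.Agent.Results.MP_20d9b9_al.RegularImpliesArtinian

universe u

/-- A formal series `∑ a_i x^i` (`i : ℤ`) with only finitely many negative powers of `x`,
i.e. an element of the skew Laurent series ring `A((x, φ))`. -/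
@[ext]
structure SkewLaurent (A : Type u) [Ring A] (φ : RingAut A) where
  /-- the coefficient of `x ^ i` -/
  coeff : ℤ → A
  /-- there are only finitely many negative powers -/
  bdd : ∃ m : ℤ, ∀ i < m, coeff i = 0

namespace SkewLaurent

variable {A : Type u} [Ring A] {φ : RingAut A}

/-- The twisted Cauchy product: the coefficient of `x ^ n` in
`(∑ a_i x^i) (∑ b_j x^j)` is `∑ a_i φ^i(b_{n-i})`. -/
noncomputable def mulCoeff (φ : RingAut A) (f g : ℤ → A) (n : ℤ) : A :=
  ∑ᶠ i : ℤ, f i * (φ ^ i) (g (n - i))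

theorem mulCoeff_eq_sum {f g : ℤ → A} {n a b : ℤ} (ha : ∀ i < a, f i = 0)
    (hb : ∀ i < b, g i = 0) (s : Finset ℤ) (hs : Finset.Icc a (n - b) ⊆ s) :
    mulCoeff φ f g n = ∑ i ∈ s, f i * (φ ^ i) (g (n - i)) := by
  unfold mulCoeff
  apply finsum_eq_sum_of_support_subset
  intro i hi
  rw [Function.mem_support] at hi
  apply hs
  rw [Finset.mem_Icc]
  constructor
  · by_contra h
    push Not at h
    exact hi (by rw [ha i h, zero_mul])
  · by_contra h
    push Not at h
    exact hi (by rw [hb (n - i) (by omega), map_zero, mul_zero])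

theorem mulCoeff_eq_zero {f g : ℤ → A} {n a b : ℤ} (ha : ∀ i < a, f i = 0)
    (hb : ∀ i < b, g i = 0) (hn : n < a + b) : mulCoeff φ f g n = 0 := by
  rw [mulCoeff_eq_sum ha hb _ (Finset.Subset.refl _), Finset.Icc_eq_empty (by omega),
    Finset.sum_empty]

instance : Zero (SkewLaurent A φ) := ⟨⟨fun _ => 0, 0, fun _ _ => rfl⟩⟩

instance : One (SkewLaurent A φ) :=
  ⟨⟨fun i => if i = 0 then 1 else 0, 0, fun i hi => if_neg (by omega)⟩⟩

instance : Add (SkewLaurent A φ) :=
  ⟨fun f g => ⟨fun i => f.coeff i + g.coeff i, by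
    obtain ⟨a, ha⟩ := f.bdd
    obtain ⟨b, hb⟩ := g.bdd
    exact ⟨min a b, fun i hi => by
      rw [ha i (lt_of_lt_of_le hi (min_le_left _ _)), hb i (lt_of_lt_of_le hi (min_le_right _ _)),
        add_zero]⟩⟩⟩

instance : Neg (SkewLaurent A φ) :=
  ⟨fun f => ⟨fun i => - f.coeff i, by
    obtain ⟨a, ha⟩ := f.bdd
    exact ⟨a, fun i hi => by rw [ha i hi, neg_zero]⟩⟩⟩

noncomputable instance : Mul (SkewLaurent A φ) :=
  ⟨fun f g => ⟨mulCoeff φ f.coeff g.coeff, by
    obtain ⟨a, ha⟩ := f.bdd
    obtain ⟨b, hb⟩ := g.bdd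
    exact ⟨a + b, fun i hi => mulCoeff_eq_zero ha hb hi⟩⟩⟩

@[simp] theorem coeff_zero (i : ℤ) : (0 : SkewLaurent A φ).coeff i = 0 := rfl

theorem coeff_one (i : ℤ) : (1 : SkewLaurent A φ).coeff i = if i = 0 then 1 else 0 := rfl

@[simp] theorem coeff_add (f g : SkewLaurent A φ) (i : ℤ) :
    (f + g).coeff i = f.coeff i + g.coeff i := rfl

@[simp] theorem coeff_neg (f : SkewLaurent A φ) (i : ℤ) : (-f).coeff i = - f.coeff i := rfl

theorem coeff_mul (f g : SkewLaurent A φ) (n : ℤ) :
    (f * g).coeff n = ∑ᶠ i : ℤ, f.coeff i * (φ ^ i) (g.coeff (n - i)) := rfl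

theorem coeff_mul_eq_sum {f g : SkewLaurent A φ} {n a b : ℤ} (ha : ∀ i < a, f.coeff i = 0)
    (hb : ∀ i < b, g.coeff i = 0) (s : Finset ℤ) (hs : Finset.Icc a (n - b) ⊆ s) :
    (f * g).coeff n = ∑ i ∈ s, f.coeff i * (φ ^ i) (g.coeff (n - i)) :=
  mulCoeff_eq_sum ha hb s hs

theorem coeff_mul_eq_zero {f g : SkewLaurent A φ} {n a b : ℤ} (ha : ∀ i < a, f.coeff i = 0)
    (hb : ∀ i < b, g.coeff i = 0) (hn : n < a + b) : (f * g).coeff n = 0 :=
  mulCoeff_eq_zero ha hb hn

theorem mul_assoc' (f g h : SkewLaurent A φ) : f * g * h = f * (g * h) := by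
  obtain ⟨a, ha⟩ := f.bdd
  obtain ⟨b, hb⟩ := g.bdd
  obtain ⟨c, hc⟩ := h.bdd
  have hfg : ∀ i < a + b, (f * g).coeff i = 0 := fun i hi => coeff_mul_eq_zero ha hb hi
  have hgh : ∀ i < b + c, (g * h).coeff i = 0 := fun i hi => coeff_mul_eq_zero hb hc hi
  ext n
  rw [coeff_mul_eq_sum hfg hc _ (Finset.Subset.refl _),
    coeff_mul_eq_sum ha hgh _ (Finset.Subset.refl _)]
  have h1 : ∀ i ∈ Finset.Icc (a + b) (n - c), (f * g).coeff i * (φ ^ i) (h.coeff (n - i))
      = ∑ j ∈ Finset.Icc a (n - (b + c)),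
          f.coeff j * (φ ^ j) (g.coeff (i - j)) * (φ ^ i) (h.coeff (n - i)) := by
    intro i hi
    rw [Finset.mem_Icc] at hi
    rw [coeff_mul_eq_sum ha hb (Finset.Icc a (n - (b + c))), Finset.sum_mul]
    intro j hj
    rw [Finset.mem_Icc] at hj ⊢
    omega
  rw [Finset.sum_congr rfl h1, Finset.sum_comm]
  apply Finset.sum_congr rfl
  intro j hj
  rw [Finset.mem_Icc] at hj
  rw [coeff_mul_eq_sum hb hc (Finset.Icc (a + b - j) (n - c - j)), map_sum, Finset.mul_sum]
  · symm
    apply Finset.sum_bij' (fun k _ => k + j) (fun i _ => i - j)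
    · intro k hk
      rw [Finset.mem_Icc] at hk ⊢
      omega
    · intro i hi
      rw [Finset.mem_Icc] at hi ⊢
      omega
    · intro k hk
      ring
    · intro i hi
      ring
    · intro k hk
      rw [map_mul, mul_assoc]
      congr 2
      · rw [add_sub_cancel_right]
      · rw [← RingAut.mul_apply, ← zpow_add, add_comm k j]
        congr 2
        ring
  · intro k hk
    rw [Finset.mem_Icc] at hk ⊢
    omega

theorem one_mul' (f : SkewLaurent A φ) : 1 * f = f := by
  ext n
  rw [coeff_mul, finsum_eq_single _ 0]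
  · simp [coeff_one]
  · intro i hi
    rw [coeff_one, if_neg hi, zero_mul]

theorem mul_one' (f : SkewLaurent A φ) : f * 1 = f := by
  ext n
  rw [coeff_mul, finsum_eq_single _ n]
  · simp [coeff_one]
  · intro i hi
    rw [coeff_one, if_neg (by omega), map_zero, mul_zero]

theorem mul_add' (f g h : SkewLaurent A φ) : f * (g + h) = f * g + f * h := by
  obtain ⟨a, ha⟩ := f.bdd
  obtain ⟨b, hb⟩ := g.bdd
  obtain ⟨c, hc⟩ := h.bdd
  have hb' : ∀ i < min b c, g.coeff i = 0 := fun i hi => hb i (lt_of_lt_of_le hi (min_le_left _ _))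
  have hc' : ∀ i < min b c, h.coeff i = 0 := fun i hi => hc i (lt_of_lt_of_le hi (min_le_right _ _))
  have hbc : ∀ i < min b c, (g + h).coeff i = 0 := fun i hi => by
    rw [coeff_add, hb' i hi, hc' i hi, add_zero]
  ext n
  rw [coeff_add, coeff_mul_eq_sum ha hbc _ (Finset.Subset.refl _),
    coeff_mul_eq_sum ha hb' _ (Finset.Subset.refl _),
    coeff_mul_eq_sum ha hc' _ (Finset.Subset.refl _), ← Finset.sum_add_distrib]
  apply Finset.sum_congr rfl
  intro i _
  rw [coeff_add, map_add, mul_add]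

theorem add_mul' (f g h : SkewLaurent A φ) : (f + g) * h = f * h + g * h := by
  obtain ⟨a, ha⟩ := f.bdd
  obtain ⟨b, hb⟩ := g.bdd
  obtain ⟨c, hc⟩ := h.bdd
  have ha' : ∀ i < min a b, f.coeff i = 0 := fun i hi => ha i (lt_of_lt_of_le hi (min_le_left _ _))
  have hb' : ∀ i < min a b, g.coeff i = 0 := fun i hi => hb i (lt_of_lt_of_le hi (min_le_right _ _))
  have hab : ∀ i < min a b, (f + g).coeff i = 0 := fun i hi => by
    rw [coeff_add, ha' i hi, hb' i hi, add_zero]
  ext n
  rw [coeff_add, coeff_mul_eq_sum hab hc _ (Finset.Subset.refl _),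
    coeff_mul_eq_sum ha' hc _ (Finset.Subset.refl _),
    coeff_mul_eq_sum hb' hc _ (Finset.Subset.refl _), ← Finset.sum_add_distrib]
  apply Finset.sum_congr rfl
  intro i _
  rw [coeff_add, add_mul]

/-- The ring structure of `A((x, φ))`: coefficientwise addition and the twisted Cauchy product. -/
noncomputable instance instRing : Ring (SkewLaurent A φ) where
  add_assoc f g h := by ext i; simp [add_assoc]
  zero_add f := by ext i; simp
  add_zero f := by ext i; simp
  add_comm f g := by ext i; simp [add_comm]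
  neg_add_cancel f := by ext i; simp
  nsmul := nsmulRec
  zsmul := zsmulRec
  mul_assoc := mul_assoc'
  one_mul := one_mul'
  mul_one := mul_one'
  left_distrib := mul_add'
  right_distrib := add_mul'
  zero_mul f := by
    ext n
    rw [coeff_mul]
    simp
  mul_zero f := by
    ext n
    rw [coeff_mul]
    simp

@[simp] theorem coeff_sub (f g : SkewLaurent A φ) (i : ℤ) :
    (f - g).coeff i = f.coeff i - g.coeff i := by
  rw [sub_eq_add_neg, coeff_add, coeff_neg, sub_eq_add_neg]

/-- The monomial `a x^n`. -/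
def mono (φ : RingAut A) (n : ℤ) (a : A) : SkewLaurent A φ :=
  ⟨fun i => if i = n then a else 0, n, fun i hi => if_neg (by omega)⟩

theorem coeff_mono (n : ℤ) (a : A) (i : ℤ) : (mono φ n a).coeff i = if i = n then a else 0 := rfl

theorem coeff_mono_mul (n : ℤ) (a : A) (f : SkewLaurent A φ) (m : ℤ) :
    (mono φ n a * f).coeff m = a * (φ ^ n) (f.coeff (m - n)) := by
  rw [coeff_mul, finsum_eq_single _ n]
  · rw [coeff_mono, if_pos rfl]
  · intro i hi
    rw [coeff_mono, if_neg hi, zero_mul]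

/-- Sanity check (not used below): the defining rule `x a = φ(a) x`. -/
theorem X_mul_C (a : A) : mono φ 1 1 * mono φ 0 a = mono φ 0 (φ a) * mono φ 1 1 := by
  ext i
  rw [coeff_mono_mul, coeff_mono_mul, coeff_mono, coeff_mono, one_mul, zpow_one, sub_zero,
    zpow_zero, RingAut.one_apply]
  by_cases hi : i = 1
  · rw [if_pos (by omega), if_pos hi, mul_one]
  · rw [if_neg (by omega), if_neg hi, map_zero, mul_zero]

theorem zpow_apply_neg_apply (φ : RingAut A) (n : ℤ) (a : A) : (φ ^ n) ((φ ^ (-n)) a) = a := by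
  rw [← RingAut.mul_apply, ← zpow_add, add_neg_cancel, zpow_zero, RingAut.one_apply]

theorem zpow_neg_apply_apply (φ : RingAut A) (n : ℤ) (a : A) : (φ ^ (-n)) ((φ ^ n) a) = a := by
  rw [← RingAut.mul_apply, ← zpow_add, neg_add_cancel, zpow_zero, RingAut.one_apply]

theorem zpow_apply_zpow_apply (φ : RingAut A) (m n : ℤ) (a : A) :
    (φ ^ m) ((φ ^ n) a) = (φ ^ (m + n)) a := by
  rw [← RingAut.mul_apply, ← zpow_add]

end SkewLaurent

open SkewLaurent

/-- A regular ring without infinite ascending chains of idempotents is semisimple. -/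
theorem isSemisimpleRing_of_regular {S : Type u} [Ring S]
    (hreg : ∀ r : S, ∃ s : S, r = r * s * r)
    (hch : ∀ g : ℕ → S, (∀ m n, m ≤ n → g m * g n = g m ∧ g n * g m = g m) →
      ∃ n, g (n + 1) = g n) : IsSemisimpleRing S := by
  have key : ∀ I : Submodule S S, ∃ g ∈ I, g * g = g ∧ ∀ y ∈ I, y * g = y := by
    intro I
    by_contra hcon
    push Not at hcon
    -- extend an idempotent of `I`
    have step : ∀ g : {g : S // g ∈ I ∧ g * g = g}, ∃ g' : {g : S // g ∈ I ∧ g * g = g},
        (g : S) * g' = g ∧ (g' : S) * g = g ∧ (g' : S) ≠ g := by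
      rintro ⟨g, hgI, hgg⟩
      obtain ⟨y, hyI, hyg⟩ := hcon g hgI hgg
      obtain ⟨z, hz⟩ : ∃ z : S, z = y - y * g := ⟨_, rfl⟩
      have hzI : z ∈ I := by rw [hz]; exact I.sub_mem hyI (I.smul_mem y hgI)
      have hz0 : z ≠ 0 := fun h => hyg (sub_eq_zero.mp (hz ▸ h)).symm
      have hzg : z * g = 0 := by rw [hz, sub_mul, mul_assoc, hgg, sub_self]
      obtain ⟨s, hs⟩ := hreg z
      obtain ⟨e', he'⟩ : ∃ e' : S, e' = s * z := ⟨_, rfl⟩
      have he'I : e' ∈ I := by rw [he']; exact I.smul_mem s hzI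
      have he'g : e' * g = 0 := by rw [he', mul_assoc, hzg, mul_zero]
      have he'e' : e' * e' = e' := by
        rw [he', mul_assoc, ← mul_assoc z s z, ← hs]
      have he'0 : e' ≠ 0 := by
        intro h
        apply hz0
        rw [hs, mul_assoc, ← he', h, mul_zero]
      obtain ⟨e, he⟩ : ∃ e : S, e = e' - g * e' := ⟨_, rfl⟩
      have heI : e ∈ I := by rw [he]; exact I.sub_mem he'I (I.smul_mem g he'I)
      have hge : g * e = 0 := by rw [he, mul_sub, ← mul_assoc, hgg, sub_self]
      have heg : e * g = 0 := by rw [he, sub_mul, mul_assoc, he'g, mul_zero, sub_zero]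
      have hee : e * e = e := by
        have : e' * e = e' := by
          rw [he, mul_sub, he'e', ← mul_assoc, he'g, zero_mul, sub_zero]
        calc e * e = (e' - g * e') * e := by rw [← he]
          _ = e' * e - g * (e' * e) := by rw [sub_mul, mul_assoc]
          _ = e := by rw [this, he]
      have he0 : e ≠ 0 := by
        intro h
        have : e' * e = e' := by
          rw [he, mul_sub, he'e', ← mul_assoc, he'g, zero_mul, sub_zero]
        rw [h, mul_zero] at this
        exact he'0 this.symm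
      refine ⟨⟨g + e, I.add_mem hgI heI, ?_⟩, ?_, ?_, ?_⟩
      · rw [add_mul, mul_add, mul_add, hgg, hge, heg, hee, add_zero, zero_add]
      · change g * (g + e) = g
        rw [mul_add, hgg, hge, add_zero]
      · change (g + e) * g = g
        rw [add_mul, hgg, heg, add_zero]
      · change g + e ≠ g
        intro h
        exact he0 (by simpa using h)
    choose nxt hn1 hn2 hn3 using step
    let g : ℕ → {g : S // g ∈ I ∧ g * g = g} := fun n => Nat.rec ⟨0, I.zero_mem, by simp⟩
      (fun _ a => nxt a) n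
    have hgs : ∀ n, g (n + 1) = nxt (g n) := fun n => rfl
    have hmono : ∀ m n, m ≤ n → (g m).1 * (g n).1 = (g m).1 ∧ (g n).1 * (g m).1 = (g m).1 := by
      intro m n hmn
      induction n, hmn using Nat.le_induction with
      | base => exact ⟨(g m).2.2, (g m).2.2⟩
      | succ n hmn ih =>
        rw [hgs]
        constructor
        · calc (g m).1 * (nxt (g n)).1 = (g m).1 * (g n).1 * (nxt (g n)).1 := by
                rw [ih.1]
            _ = (g m).1 * ((g n).1 * (nxt (g n)).1) := by rw [mul_assoc]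
            _ = (g m).1 := by rw [hn1, ih.1]
        · calc (nxt (g n)).1 * (g m).1 = (nxt (g n)).1 * ((g n).1 * (g m).1) := by
                rw [ih.2]
            _ = (nxt (g n)).1 * (g n).1 * (g m).1 := by rw [mul_assoc]
            _ = (g m).1 := by rw [hn2, ih.2]
    obtain ⟨n, hn⟩ := hch (fun n => (g n).1) hmono
    apply hn3 (g n)
    rw [← hgs]
    exact hn
  have hcomp : ComplementedLattice (Submodule S S) := by
    constructor
    intro I
    obtain ⟨g, hgI, hgg, hg⟩ := key I
    refine ⟨LinearMap.ker (LinearMap.toSpanSingleton S S g), ?_⟩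
    rw [isCompl_iff]
    constructor
    · rw [Submodule.disjoint_def]
      intro y hyI hy
      rw [LinearMap.mem_ker, LinearMap.toSpanSingleton_apply, smul_eq_mul] at hy
      rw [← hg y hyI, hy]
    · rw [codisjoint_iff, eq_top_iff]
      intro y _
      rw [Submodule.mem_sup]
      refine ⟨y * g, I.smul_mem y hgI, y - y * g, ?_, by simp⟩
      rw [LinearMap.mem_ker, LinearMap.toSpanSingleton_apply, smul_eq_mul, sub_mul, mul_assoc, hgg,
        sub_self]
  exact (isSemisimpleModule_iff S S).mpr hcomp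

variable {A : Type u} [Ring A] {φ : RingAut A}

/-- If `A((x, φ))` is regular then so is `A`. -/
theorem regular_coeff (hreg : ∀ r : SkewLaurent A φ, ∃ s, r = r * s * r) (a : A) :
    ∃ s : A, a = a * s * a := by
  obtain ⟨s, hs⟩ := hreg (mono φ 0 a)
  refine ⟨s.coeff 0, ?_⟩
  have h := congrArg (fun f => f.coeff 0) hs
  simp only [mul_assoc] at h
  rw [coeff_mono, if_pos rfl, coeff_mono_mul, coeff_mul, finsum_eq_single _ 0] at h
  · simpa [coeff_mono, mul_assoc] using h
  · intro i hi
    rw [coeff_mono, if_neg (by omega), map_zero, mul_zero]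

/-- The key obstruction to regularity of `A((x, φ))`. -/
theorem key_obstruction (hreg : ∀ r : SkewLaurent A φ, ∃ s, r = r * s * r)
    (n : ℕ → ℕ) (hn : StrictMono n) (a E F : ℕ → A)
    (hE1 : ∀ i, E i * a i = a i) (hE2 : ∀ i j, i ≠ j → E i * a j = 0)
    (hF1 : ∀ i, (φ ^ (-(n i : ℤ))) (a i) * F i = (φ ^ (-(n i : ℤ))) (a i))
    (hF2 : ∀ i j, i ≠ j → (φ ^ (-(n i : ℤ))) (a i) * F j = 0)
    (ha : ∀ i, a i ≠ 0) : False := by
  have hinj : Function.Injective (fun k : ℕ => (n k : ℤ)) := fun i j h => by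
    have : (n i : ℤ) = n j := h
    exact hn.injective (by exact_mod_cast this)
  -- the series `∑ a_k x^(n_k)`
  let f : SkewLaurent A φ := ⟨Function.extend (fun k : ℕ => (n k : ℤ)) a 0, 0, fun i hi => by
    rw [Function.extend_apply']
    · rfl
    · rintro ⟨k, hk⟩
      have : (n k : ℤ) = i := hk
      omega⟩
  have hf1 : ∀ k, f.coeff (n k) = a k := fun k => hinj.extend_apply a 0 k
  have hf2 : ∀ i, (¬ ∃ k, (n k : ℤ) = i) → f.coeff i = 0 := fun i hi =>
    Function.extend_apply' _ _ _ hi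
  have hf0 : ∀ i < 0, f.coeff i = 0 := fun i hi => hf2 i (by rintro ⟨k, hk⟩; omega)
  obtain ⟨g, hg⟩ := hreg f
  obtain ⟨b, hb⟩ := g.bdd
  -- `E_i f = a_i x^(n_i)`
  have hEf : ∀ i, mono φ 0 (E i) * f = mono φ (n i) (a i) := by
    intro i
    ext m
    rw [coeff_mono_mul, coeff_mono, sub_zero, zpow_zero, RingAut.one_apply]
    by_cases hm : ∃ k, (n k : ℤ) = m
    · obtain ⟨k, rfl⟩ := hm
      rw [hf1]
      by_cases hik : i = k
      · subst hik
        rw [if_pos rfl, hE1]
      · rw [hE2 i k hik, if_neg]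
        intro h
        exact hik (hinj h).symm
    · rw [hf2 m hm, mul_zero, if_neg]
      intro h
      exact hm ⟨i, h.symm⟩
  have hc : ∀ i, (φ ^ (-(n i : ℤ))) (a i) = (φ ^ (-(n i : ℤ))) (a i) * (g * f).coeff 0 := by
    intro i
    have h1 : mono φ (n i) (a i) = mono φ (n i) (a i) * (g * f) := by
      rw [← hEf, mul_assoc, ← mul_assoc f g f, ← hg]
    have h2 := congrArg (fun f => f.coeff (n i)) h1
    rw [coeff_mono_mul, coeff_mono, if_pos rfl, sub_self] at h2
    calc (φ ^ (-(n i : ℤ))) (a i)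
        = (φ ^ (-(n i : ℤ))) (a i * (φ ^ (n i : ℤ)) ((g * f).coeff 0)) := by rw [← h2]
      _ = _ := by rw [map_mul, zpow_neg_apply_apply]
  obtain ⟨i, hi⟩ : ∃ i, -b < n i := by
    obtain ⟨i, hi⟩ := hn.tendsto_atTop.eventually_gt_atTop (-b).toNat |>.exists
    exact ⟨i, by have := Int.self_le_toNat (-b); omega⟩
  have h0 : (g * f).coeff 0 * F i = 0 := by
    rw [coeff_mul_eq_sum hb hf0 _ (Finset.Subset.refl _), Finset.sum_mul]
    apply Finset.sum_eq_zero
    intro k hk
    rw [Finset.mem_Icc] at hk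
    by_cases hm : ∃ j, (n j : ℤ) = 0 - k
    · obtain ⟨j, hj⟩ := hm
      rw [← hj, hf1]
      have hk' : k = -(n j : ℤ) := by omega
      have hij : j ≠ i := by
        rintro rfl
        omega
      rw [hk', mul_assoc, hF2 j i hij, mul_zero]
    · rw [hf2 _ hm, map_zero, mul_zero, zero_mul]
  have h1 : (φ ^ (-(n i : ℤ))) (a i) = 0 := by
    rw [← hF1 i, hc i, mul_assoc, h0, mul_zero]
  exact ha i ((map_eq_zero_iff _ (φ ^ (-(n i : ℤ))).injective).mp h1)

/-- If `A((x, φ))` is regular then `A` has no infinite strictly increasing chain of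
idempotents. -/
theorem no_chain_coeff (hreg : ∀ r : SkewLaurent A φ, ∃ s, r = r * s * r) (g : ℕ → A)
    (hg : ∀ m n, m ≤ n → g m * g n = g m ∧ g n * g m = g m) : ∃ n, g (n + 1) = g n := by
  by_contra hcon
  push Not at hcon
  have hregA := regular_coeff hreg
  -- the orthogonal idempotents
  obtain ⟨e, he⟩ : ∃ e : ℕ → A, ∀ n, e n = g (n + 1) - g n := ⟨_, fun _ => rfl⟩
  have he0 : ∀ n, e n ≠ 0 := fun n h => hcon n (sub_eq_zero.mp (he n ▸ h))
  have hee : ∀ n, e n * e n = e n := by
    intro n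
    rw [he, sub_mul, mul_sub, mul_sub, (hg _ _ le_rfl).1, (hg n (n + 1) (by omega)).1,
      (hg n (n + 1) (by omega)).2, (hg n n le_rfl).1, sub_self, sub_zero]
  have horth1 : ∀ m n, m < n → e m * e n = 0 := by
    intro m n hmn
    rw [he, he, sub_mul, mul_sub, mul_sub, (hg (m + 1) (n + 1) (by omega)).1,
      (hg (m + 1) n (by omega)).1, (hg m (n + 1) (by omega)).1, (hg m n (by omega)).1]
    simp
  have horth2 : ∀ m n, m < n → e n * e m = 0 := by
    intro m n hmn
    rw [he, he, sub_mul, mul_sub, mul_sub, (hg (m + 1) (n + 1) (by omega)).2,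
      (hg (m + 1) n (by omega)).2, (hg m (n + 1) (by omega)).2, (hg m n (by omega)).2]
    simp
  have horth : ∀ m n, m ≠ n → e m * e n = 0 := by
    intro m n hmn
    rcases lt_or_gt_of_ne hmn with h | h
    · exact horth1 m n h
    · exact horth2 n m h
  by_cases hopt : ∀ N : ℕ, ∃ n i j : ℕ, N ≤ n ∧ N ≤ i ∧ N ≤ j ∧
      ∃ y : A, (φ ^ (-(n : ℤ))) (e i) * y * e j ≠ 0
  · -- Option A
    choose tn ti tj hn hi hj ty hty using hopt
    let s : ℕ → ℕ := fun k => Nat.rec 0 (fun _ N => max (tn N) (max (ti N) (tj N)) + 1) k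
    have hs : ∀ k, s (k + 1) = max (tn (s k)) (max (ti (s k)) (tj (s k))) + 1 := fun k => rfl
    have hmn : StrictMono (fun k => tn (s k)) := strictMono_nat_of_lt_succ fun k => by
      have h1 := hs k
      have h2 := hn (s (k + 1))
      have h3 := le_max_left (tn (s k)) (max (ti (s k)) (tj (s k)))
      omega
    have hmi : StrictMono (fun k => ti (s k)) := strictMono_nat_of_lt_succ fun k => by
      have h1 := hs k
      have h2 := hi (s (k + 1))
      have h3 := (le_max_left (ti (s k)) (tj (s k))).trans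
        (le_max_right (tn (s k)) (max (ti (s k)) (tj (s k))))
      omega
    have hmj : StrictMono (fun k => tj (s k)) := strictMono_nat_of_lt_succ fun k => by
      have h1 := hs k
      have h2 := hj (s (k + 1))
      have h3 := (le_max_right (ti (s k)) (tj (s k))).trans
        (le_max_right (tn (s k)) (max (ti (s k)) (tj (s k))))
      omega
    refine key_obstruction hreg (fun k => tn (s k)) hmn
      (fun k => (φ ^ (tn (s k) : ℤ)) ((φ ^ (-(tn (s k) : ℤ))) (e (ti (s k))) * ty (s k) *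
        e (tj (s k)))) (fun k => e (ti (s k))) (fun k => e (tj (s k))) ?_ ?_ ?_ ?_ ?_
    · intro k
      rw [map_mul, map_mul, zpow_apply_neg_apply, mul_assoc, ← mul_assoc (e _) (e _), hee]
    · intro k l hkl
      rw [map_mul, map_mul, zpow_apply_neg_apply, mul_assoc, ← mul_assoc (e _) (e _),
        horth _ _ (fun h => hkl (hmi.injective h)), zero_mul]
    · intro k
      rw [zpow_neg_apply_apply, mul_assoc _ (e _) (e _), hee]
    · intro k l hkl
      rw [zpow_neg_apply_apply, mul_assoc _ (e _) (e _),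
        horth _ _ (fun h => hkl (hmj.injective h)), mul_zero]
    · intro k h
      exact hty (s k) ((map_eq_zero_iff _ (φ ^ (tn (s k) : ℤ)).injective).mp h)
  · -- Option B
    push Not at hopt
    obtain ⟨N, hN⟩ := hopt
    obtain ⟨u, hu⟩ : ∃ u : A, u = e N := ⟨_, rfl⟩
    have hu0 : u ≠ 0 := hu ▸ he0 N
    have huu : u * u = u := by rw [hu, hee]
    have h1 : ∀ m : ℕ, N ≤ m → ∀ y : A, (φ ^ (-(m : ℤ))) u * y * u = 0 := by
      intro m hm y
      rw [hu]
      exact hN m N N hm le_rfl le_rfl y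
    have h2 : ∀ m : ℕ, N ≤ m → u * (φ ^ (-(m : ℤ))) u = 0 := by
      intro m hm
      obtain ⟨s, hs⟩ := hregA (u * (φ ^ (-(m : ℤ))) u)
      rw [hs, show u * (φ ^ (-(m : ℤ))) u * s * (u * (φ ^ (-(m : ℤ))) u) =
        u * ((φ ^ (-(m : ℤ))) u * s * u) * (φ ^ (-(m : ℤ))) u by simp only [mul_assoc], h1 m hm,
        mul_zero, zero_mul]
    have h1' : ∀ m : ℕ, N ≤ m → (φ ^ (-(m : ℤ))) u * u = 0 := by
      intro m hm
      simpa using h1 m hm 1
    -- orthogonality of `φ^p u` and `φ^q u`
    have h3 : ∀ p q : ℤ, (N : ℤ) ≤ q - p → (φ ^ p) u * (φ ^ q) u = 0 := by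
      intro p q hpq
      obtain ⟨m, hm⟩ : ∃ m : ℕ, (m : ℤ) = q - p := ⟨(q - p).toNat, Int.toNat_of_nonneg (by omega)⟩
      have := congrArg (φ ^ q) (h1' m (by omega))
      rw [map_mul, map_zero, zpow_apply_zpow_apply] at this
      rwa [show q + -(m : ℤ) = p by omega] at this
    have h4 : ∀ p q : ℤ, (N : ℤ) ≤ p - q → (φ ^ p) u * (φ ^ q) u = 0 := by
      intro p q hpq
      obtain ⟨m, hm⟩ : ∃ m : ℕ, (m : ℤ) = p - q := ⟨(p - q).toNat, Int.toNat_of_nonneg (by omega)⟩
      have := congrArg (φ ^ p) (h2 m (by omega))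
      rw [map_mul, map_zero, zpow_apply_zpow_apply] at this
      rwa [show p + -(m : ℤ) = q by omega] at this
    have h5 : ∀ k l : ℕ, k ≠ l → ∀ c : ℕ, 1 ≤ c → (φ ^ ((c * (N + 1) * k : ℕ) : ℤ)) u *
        (φ ^ ((c * (N + 1) * l : ℕ) : ℤ)) u = 0 := by
      intro k l hkl c hc
      rcases lt_or_gt_of_ne hkl with h | h
      · apply h3
        have : c * (N + 1) * k + (N + 1) ≤ c * (N + 1) * l := by
          calc c * (N + 1) * k + (N + 1) ≤ c * (N + 1) * k + c * (N + 1) := by
                have : 1 * (N + 1) ≤ c * (N + 1) := Nat.mul_le_mul_right _ hc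
                omega
            _ = c * (N + 1) * (k + 1) := by ring
            _ ≤ c * (N + 1) * l := Nat.mul_le_mul_left _ h
        omega
      · apply h4
        have : c * (N + 1) * l + (N + 1) ≤ c * (N + 1) * k := by
          calc c * (N + 1) * l + (N + 1) ≤ c * (N + 1) * l + c * (N + 1) := by
                have : 1 * (N + 1) ≤ c * (N + 1) := Nat.mul_le_mul_right _ hc
                omega
            _ = c * (N + 1) * (l + 1) := by ring
            _ ≤ c * (N + 1) * k := Nat.mul_le_mul_left _ h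
        omega
    have h6 : ∀ k : ℕ, (φ ^ (-((1 * (N + 1) * k : ℕ) : ℤ))) ((φ ^ ((2 * (N + 1) * k : ℕ) : ℤ)) u) =
        (φ ^ ((1 * (N + 1) * k : ℕ) : ℤ)) u := by
      intro k
      rw [zpow_apply_zpow_apply]
      congr 2
      push_cast
      ring
    refine key_obstruction hreg (fun k => 1 * (N + 1) * k) ?_
      (fun k => (φ ^ ((2 * (N + 1) * k : ℕ) : ℤ)) u)
      (fun k => (φ ^ ((2 * (N + 1) * k : ℕ) : ℤ)) u)
      (fun k => (φ ^ ((1 * (N + 1) * k : ℕ) : ℤ)) u) ?_ ?_ ?_ ?_ ?_
    · apply strictMono_nat_of_lt_succ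
      intro k
      exact Nat.mul_lt_mul_of_pos_left (Nat.lt_succ_self k) (by omega)
    · intro k
      rw [← map_mul, huu]
    · intro k l hkl
      exact h5 k l hkl 2 (by omega)
    · intro k
      rw [h6, ← map_mul, huu]
    · intro k l hkl
      rw [h6]
      exact h5 k l hkl 1 le_rfl
    · intro k h
      exact hu0 ((map_eq_zero_iff _ (φ ^ ((2 * (N + 1) * k : ℕ) : ℤ)).injective).mp h)

/-- If `A` is left Noetherian then `A((x, φ))` has no infinite strictly increasing chain of
idempotents. -/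
theorem no_chain_laurent [IsNoetherianRing A] (G : ℕ → SkewLaurent A φ)
    (hG : ∀ m n, m ≤ n → G m * G n = G m ∧ G n * G m = G m) : ∃ n, G (n + 1) = G n := by
  -- leading coefficients in degree zero of the left ideals `R G_n`
  let L : ℕ → Submodule A A := fun n =>
    { carrier := {a | ∃ f : SkewLaurent A φ, f * G n = f ∧ (∀ i < 0, f.coeff i = 0) ∧
        f.coeff 0 = a}
      zero_mem' := ⟨0, zero_mul _, fun _ _ => rfl, rfl⟩
      add_mem' := by
        rintro a b ⟨f, hf1, hf2, hf3⟩ ⟨g, hg1, hg2, hg3⟩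
        refine ⟨f + g, by rw [add_mul, hf1, hg1], fun i hi => ?_, ?_⟩
        · rw [coeff_add, hf2 i hi, hg2 i hi, add_zero]
        · rw [coeff_add, hf3, hg3]
      smul_mem' := by
        rintro c a ⟨f, hf1, hf2, hf3⟩
        refine ⟨mono φ 0 c * f, by rw [mul_assoc, hf1], fun i hi => ?_, ?_⟩
        · rw [coeff_mono_mul, sub_zero, hf2 i hi, map_zero, mul_zero]
        · rw [coeff_mono_mul, sub_zero, hf3, zpow_zero, RingAut.one_apply, smul_eq_mul] }
  have hL : Monotone L := by
    intro m n hmn a ha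
    obtain ⟨f, hf1, hf2, hf3⟩ := ha
    refine ⟨f, ?_, hf2, hf3⟩
    rw [← hf1, mul_assoc, (hG m n hmn).1]
  obtain ⟨n, hn⟩ := monotone_stabilizes_iff_noetherian.mpr (inferInstance : IsNoetherian A A)
    ⟨L, hL⟩
  have hLn : L n = L (n + 1) := hn (n + 1) (by omega)
  refine ⟨n, ?_⟩
  have hGn : G n * G n = G n := (hG n n le_rfl).1
  have hGs : G (n + 1) * G (n + 1) = G (n + 1) := (hG _ _ le_rfl).1
  obtain ⟨b, hb⟩ := (G n).bdd
  obtain ⟨c, hc⟩ := (G (n + 1) - G n).bdd
  obtain ⟨f, hf⟩ : ∃ f : SkewLaurent A φ, f = mono φ (-c) 1 * (G (n + 1) - G n) := ⟨_, rfl⟩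
  have hf0 : ∀ i < 0, f.coeff i = 0 := by
    intro i hi
    rw [hf, coeff_mono_mul, hc _ (by omega), map_zero, mul_zero]
  have hf1 : f * G (n + 1) = f := by
    rw [hf, mul_assoc, sub_mul, hGs, (hG n (n + 1) (by omega)).1]
  have hf2 : f * G n = 0 := by
    rw [hf, mul_assoc, sub_mul, hGn, (hG n (n + 1) (by omega)).2, sub_self, mul_zero]
  -- approximations of `f` inside `R G_n`
  have happ : ∀ N : ℕ, ∃ h : SkewLaurent A φ, h * G n = h ∧
      ∀ i < (N : ℤ), (f - h).coeff i = 0 := by
    intro N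
    induction N with
    | zero => exact ⟨0, zero_mul _, fun i hi => by rw [sub_zero]; exact hf0 i (by simpa using hi)⟩
    | succ N ih =>
      obtain ⟨h, hh1, hh2⟩ := ih
      have hmem : (φ ^ (-(N : ℤ))) ((f - h).coeff N) ∈ L (n + 1) := by
        refine ⟨mono φ (-(N : ℤ)) 1 * (f - h), ?_, fun i hi => ?_, ?_⟩
        · rw [mul_assoc, sub_mul, hf1]
          congr 2
          rw [← hh1, mul_assoc, (hG n (n + 1) (by omega)).1]
        · rw [coeff_mono_mul, hh2 _ (by omega), map_zero, mul_zero]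
        · rw [coeff_mono_mul, one_mul, zero_sub, neg_neg]
      rw [← hLn] at hmem
      obtain ⟨u, hu1, hu2, hu3⟩ := hmem
      refine ⟨h + mono φ N 1 * u, by rw [add_mul, hh1, mul_assoc, hu1], fun i hi => ?_⟩
      rw [← sub_sub, coeff_sub, coeff_mono_mul, one_mul]
      push_cast at hi
      rcases lt_or_eq_of_le (Int.lt_add_one_iff.mp hi) with h | h
      · rw [hh2 i h, hu2 _ (by omega), map_zero, sub_zero]
      · rw [h, sub_self, hu3, zpow_apply_neg_apply, sub_self]
  have hfz : f = 0 := by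
    ext i
    rw [coeff_zero]
    obtain ⟨N, hN1, hN2⟩ : ∃ N : ℕ, i < N ∧ i < N + b :=
      ⟨(max (i + 1) (i + 1 - b)).toNat, by
        have := Int.self_le_toNat (max (i + 1) (i + 1 - b))
        have h1 := le_max_left (i + 1) (i + 1 - b)
        omega, by
        have := Int.self_le_toNat (max (i + 1) (i + 1 - b))
        have h1 := le_max_right (i + 1) (i + 1 - b)
        omega⟩
    obtain ⟨h, hh1, hh2⟩ := happ N
    have h3 : h = - ((f - h) * G n) := by rw [sub_mul, hf2, hh1, zero_sub, neg_neg]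
    have h4 : h.coeff i = 0 := by
      rw [h3, coeff_neg, coeff_mul_eq_zero hh2 hb hN2, neg_zero]
    have h5 := hh2 i hN1
    rwa [coeff_sub, h4, sub_zero] at h5
  have h6 : mono φ c 1 * f = G (n + 1) - G n := by
    rw [hf, ← mul_assoc]
    have : mono φ c 1 * mono φ (-c) 1 = 1 := by
      ext i
      rw [coeff_mono_mul, coeff_mono, coeff_one, one_mul]
      by_cases hi : i = 0
      · rw [if_pos (by omega), if_pos hi, map_one]
      · rw [if_neg (by omega), if_neg hi, map_zero]
    rw [this, one_mul]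
  rw [hfz, mul_zero] at h6
  exact sub_eq_zero.mp h6.symm

/-- **Main theorem.** If the skew Laurent series ring `R = A((x, φ))` is von Neumann regular, then
`R` is Artinian (on both sides). -/
theorem result (A : Type u) [Ring A] (φ : RingAut A)
    (hreg : ∀ r : SkewLaurent A φ, ∃ s : SkewLaurent A φ, r = r * s * r) :
    IsArtinianRing (SkewLaurent A φ) ∧ IsArtinianRing (SkewLaurent A φ)ᵐᵒᵖ := by
  have h1 : IsSemisimpleRing A := isSemisimpleRing_of_regular (regular_coeff hreg)
    (no_chain_coeff hreg)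
  have h2 : IsSemisimpleRing (SkewLaurent A φ) := isSemisimpleRing_of_regular hreg
    (fun G hG => no_chain_laurent G hG)
  exact ⟨inferInstance, inferInstance⟩

end Pool.Agent.Results.MP_20d9b9_al.RegularImpliesArtinian
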